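import Pool.Agent.Q121.SA.FG

/-!
# Project SA: compact fundamental domain, discreteness
-/

set_option autoImplicit false

namespace Pool.Agent.Q121.SA

open Matrix Pool.Agent.Q86.SA UpperHalfPlane
open scoped MatrixGroups

theorem cont_entry (i j : Fin 2) : Continuous (fun g : SL(2, ℝ) => g.1 i j) :=
  continuous_subtype_val.matrix_elem i j

/-- COMP. -/
theorem comp : S_COMP := by
  intro Γ hΓ
  obtain ⟨K, hK, hcov⟩ := hΓ.cocompact
  have hP : IsCompact ((fun g : SL(2, ℝ) => g • (UpperHalfPlane.I : ℍ)) ⁻¹' K) :=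
    isProperMap_smul_I.isCompact_preimage hK
  have hb : ∀ i j : Fin 2, ∃ R : ℝ, ∀ g ∈ (fun g : SL(2, ℝ) =>
      g • (UpperHalfPlane.I : ℍ)) ⁻¹' K, ‖g.1 i j‖ ≤ R := fun i j =>
    hP.exists_bound_of_continuousOn (cont_entry i j).continuousOn
  choose R hR using hb
  refine ⟨|R 0 0| + |R 0 1| + |R 1 0| + |R 1 1|, ?_⟩
  intro g
  obtain ⟨γ, hγ, hγK⟩ := hcov (g • (UpperHalfPlane.I : ℍ))
  refine ⟨γ⁻¹, inv_mem hγ, γ * g, by rw [inv_mul_cancel_left], ?_⟩
  have hm : γ * g ∈ (fun g : SL(2, ℝ) => g • (UpperHalfPlane.I : ℍ)) ⁻¹' K := by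
    change (γ * g) • (UpperHalfPlane.I : ℍ) ∈ K
    rw [mul_smul]
    exact hγK
  have h1 := abs_nonneg (R 0 0)
  have h2 := abs_nonneg (R 0 1)
  have h3 := abs_nonneg (R 1 0)
  have h4 := abs_nonneg (R 1 1)
  have h5 : ∀ i j, |(γ * g).1 i j| ≤ |R i j| := fun i j => (hR i j _ hm).trans (le_abs_self _)
  intro i j
  refine (h5 i j).trans ?_
  fin_cases i <;> fin_cases j
  · change |R 0 0| ≤ _
    linarith
  · change |R 0 1| ≤ _
    linarith
  · change |R 1 0| ≤ _
    linarith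
  · change |R 1 1| ≤ _
    linarith

theorem compact_bd (R : ℝ) : IsCompact {g : SL(2, ℝ) | Bd R g} := by
  have h1 : IsCompact {m : Matrix (Fin 2) (Fin 2) ℝ | ∀ i j, |m i j| ≤ R} := by
    have h2 : IsCompact (Set.pi Set.univ (fun _ : Fin 2 => Set.pi Set.univ
        (fun _ : Fin 2 => Set.Icc (-R) R))) :=
      isCompact_univ_pi (fun _ => isCompact_univ_pi (fun _ => isCompact_Icc))
    have e : {m : Matrix (Fin 2) (Fin 2) ℝ | ∀ i j, |m i j| ≤ R} =
        Set.pi Set.univ (fun _ : Fin 2 => Set.pi Set.univ (fun _ : Fin 2 => Set.Icc (-R) R)) := by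
      apply Set.ext
      intro m
      constructor
      · intro h i _ j _
        exact abs_le.mp (h i j)
      · intro h i j
        exact abs_le.mpr (h i (Set.mem_univ i) j (Set.mem_univ j))
    rw [e]
    exact h2
  exact Matrix.SpecialLinearGroup.isClosedEmbedding_val.isCompact_preimage h1

/-- FIN. -/
theorem fin : S_FIN := by
  intro Γ hΓ R
  have hc : Continuous (fun g : SL(2, ℝ) => g • (UpperHalfPlane.I : ℍ)) := by fun_prop
  have hK : IsCompact ((fun g : SL(2, ℝ) => g • (UpperHalfPlane.I : ℍ)) '' {g | Bd R g} ∪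
      {(UpperHalfPlane.I : ℍ)}) := ((compact_bd R).image hc).union isCompact_singleton
  refine (hΓ.properly _ hK).subset ?_
  rintro γ ⟨hγ, hb⟩
  exact ⟨hγ, UpperHalfPlane.I, Or.inr rfl, Or.inl ⟨γ, hb, rfl⟩⟩

end Pool.Agent.Q121.SA
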