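import Pool.Agent.Q121.SA.PTS

/-!
# Project SA: hyperbolic elements are diagonalizable, discreteness of the traces
-/

set_option autoImplicit false

namespace Pool.Agent.Q121.SA

open Matrix Pool.Agent.Q86.SA
open scoped MatrixGroups

theorem eigen {a b c d l m : ℝ} (htr : a + d = l + m) (hdet : a * d - b * c = 1)
    (hlm : l * m = 1) (hml : m < l) : ∃ v1 v2 w1 w2 : ℝ, v1 * w2 - w1 * v2 = 1 ∧
      a * v1 + b * v2 = l * v1 ∧ c * v1 + d * v2 = l * v2 ∧
      a * w1 + b * w2 = m * w1 ∧ c * w1 + d * w2 = m * w2 := by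
  have hml' : l - m ≠ 0 := (sub_pos.mpr hml).ne'
  have hml'' : m - l ≠ 0 := (sub_neg.mpr hml).ne
  by_cases hc : c = 0
  · by_cases hb : b = 0
    · have h1 : (a - l) * (a - m) = 0 := by
        have hd : d = l + m - a := by linarith
        rw [hb, hc, hd] at hdet
        linear_combination -hdet + hlm
      rcases mul_eq_zero.mp h1 with h | h
      · have ha : a = l := by linarith
        have hd : d = m := by linarith
        exact ⟨1, 0, 0, 1, by ring, by rw [ha, hb]; ring, by rw [hc]; ring, by rw [hb]; ring,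
          by rw [hd, hc]; ring⟩
      · have ha : a = m := by linarith
        have hd : d = l := by linarith
        exact ⟨0, 1, -1, 0, by ring, by rw [hb]; ring, by rw [hc, hd]; ring,
          by rw [hb, ha]; ring, by rw [hc]; ring⟩
    · refine ⟨b, l - a, 1 / (m - l), (m - a) / (b * (m - l)), ?_, ?_, ?_, ?_, ?_⟩
      · field_simp
        ring
      · ring
      · rw [hc] at hdet ⊢
        linear_combination l * htr - hdet + hlm
      · field_simp
        ring
      · rw [hc] at hdet ⊢
        field_simp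
        linear_combination m * htr - hdet + hlm
  · refine ⟨a - m, c, (a - l) / (c * (l - m)), c / (c * (l - m)), ?_, ?_, ?_, ?_, ?_⟩
    · field_simp
      ring
    · linear_combination a * htr - hdet + hlm
    · linear_combination c * htr
    · field_simp
      linear_combination a * htr - hdet + hlm
    · field_simp
      linear_combination htr

theorem half_log {l : ℝ} (hl : 0 < l) : Real.exp (2 * Real.log l / 2) = l := by
  rw [mul_div_cancel_left₀ _ two_ne_zero, Real.exp_log hl]

/-- DIAG. -/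
theorem diag : S_DIAG := by
  intro g hg
  obtain ⟨s, hs, hst⟩ : ∃ s : ℝ, (s = 1 ∨ s = -1) ∧ |tr g| = s * tr g := by
    rcases abs_choice (tr g) with h | h
    · exact ⟨1, Or.inl rfl, by rw [h, one_mul]⟩
    · exact ⟨-1, Or.inr rfl, by rw [h, neg_one_mul]⟩
  have hss : s * s = 1 := by rcases hs with rfl | rfl <;> norm_num
  set T := |tr g| with hT
  have hD : 0 < T ^ 2 - 4 := by nlinarith
  set r := Real.sqrt (T ^ 2 - 4) with hr
  have hr0 : 0 < r := Real.sqrt_pos.mpr hD
  have hr2 : r * r = T ^ 2 - 4 := Real.mul_self_sqrt hD.le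
  have hrT : r < T := by
    by_contra hcon
    push Not at hcon
    nlinarith
  set l := (T + r) / 2 with hl
  set m := (T - r) / 2 with hm
  have hlm : l * m = 1 := by
    rw [hl, hm]
    linear_combination (-1 / 4 : ℝ) * hr2
  have hml : m < l := by rw [hl, hm]; linarith
  have hsum : l + m = T := by rw [hl, hm]; ring
  have hm0 : 0 < m := by rw [hm]; linarith
  have hl0 : 0 < l := by linarith
  have hl1 : 1 < l := by nlinarith
  have hdet := det_e g
  obtain ⟨v1, v2, w1, w2, e0, e1, e2, e3, e4⟩ := eigen (a := s * g.1 0 0) (b := s * g.1 0 1)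
    (c := s * g.1 1 0) (d := s * g.1 1 1) (l := l) (m := m)
    (by rw [hsum, hst]; unfold tr; ring)
    (by linear_combination (g.1 0 0 * g.1 1 1 - g.1 0 1 * g.1 1 0) * hss + hdet) hlm hml
  set x : SL(2, ℝ) := ⟨!![v1, w1; v2, w2], by rw [Matrix.det_fin_two_of]; exact e0⟩ with hx
  have x00 : x.1 0 0 = v1 := rfl
  have x01 : x.1 0 1 = w1 := rfl
  have x10 : x.1 1 0 = v2 := rfl
  have x11 : x.1 1 1 = w2 := rfl
  have hlog : 0 < Real.log l := Real.log_pos hl1
  have f00 : (flow (2 * Real.log l)).1 0 0 = l := half_log hl0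
  have f01 : (flow (2 * Real.log l)).1 0 1 = 0 := rfl
  have f10 : (flow (2 * Real.log l)).1 1 0 = 0 := rfl
  have f11 : (flow (2 * Real.log l)).1 1 1 = m := by
    change Real.exp (-(2 * Real.log l / 2)) = m
    rw [Real.exp_neg, half_log hl0]
    exact inv_eq_of_mul_eq_one_right hlm
  refine ⟨x, 2 * Real.log l, by linarith, ?_, ?_⟩
  · rcases hs with rfl | rfl
    · left
      apply sl_ext
      · rw [mul_e, mul_e, f00, f10, x00, x01, x10]
        linear_combination e1
      · rw [mul_e, mul_e, f01, f11, x00, x01, x11]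
        linear_combination e3
      · rw [mul_e, mul_e, f00, f10, x00, x11, x10]
        linear_combination e2
      · rw [mul_e, mul_e, f01, f11, x01, x10, x11]
        linear_combination e4
    · right
      apply sl_ext
      · rw [neg_e, mul_e, mul_e, f00, f10, x00, x01, x10]
        linear_combination -e1
      · rw [neg_e, mul_e, mul_e, f01, f11, x00, x01, x11]
        linear_combination -e3
      · rw [neg_e, mul_e, mul_e, f00, f10, x00, x11, x10]
        linear_combination -e2
      · rw [neg_e, mul_e, mul_e, f01, f11, x01, x10, x11]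
        linear_combination -e4
  · rw [Real.cosh_eq, Real.exp_neg, half_log hl0, inv_eq_of_mul_eq_one_right hlm, hsum]
    ring

/-- SPEC. -/
theorem spec (h1 : S_COMP) (h2 : S_FIN) (h3 : S_HYP) (h4 : S_DIAG) : S_SPEC := by
  intro Γ hΓ R
  obtain ⟨R0, hR0⟩ := h1 Γ hΓ
  refine (((h2 Γ hΓ (2 * (2 * R0 * R) * R0)).image tr).union (Set.finite_singleton 2)).subset ?_
  rintro t ⟨γ, hγ, rfl, htR⟩
  by_cases hγ1 : γ = 1
  · right
    rw [hγ1, tr_one]
    rfl
  left
  obtain ⟨x, ℓ, hℓ, hx, htr⟩ := h4 γ (h3 Γ hΓ γ hγ hγ1)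
  obtain ⟨s, hs, a00, a01, a10, a11⟩ := frame_form hx
  have hsabs : |s| = 1 := by rcases hs with rfl | rfl <;> norm_num
  have hR : 0 ≤ R := (abs_nonneg _).trans htR
  rw [htr, Real.cosh_eq] at htR
  have p1 := Real.exp_pos (ℓ / 2)
  have p2 := Real.exp_pos (-(ℓ / 2))
  have hbd : Bd R (x⁻¹ * γ * x) := by
    intro i j
    fin_cases i <;> fin_cases j
    · change |(x⁻¹ * γ * x).1 0 0| ≤ R
      rw [a00, abs_mul, hsabs, one_mul, abs_of_pos p1]
      linarith
    · change |(x⁻¹ * γ * x).1 0 1| ≤ R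
      rw [a01, abs_zero]
      exact hR
    · change |(x⁻¹ * γ * x).1 1 0| ≤ R
      rw [a10, abs_zero]
      exact hR
    · change |(x⁻¹ * γ * x).1 1 1| ≤ R
      rw [a11, abs_mul, hsabs, one_mul, abs_of_pos p2]
      linarith
  obtain ⟨c, hc, k, hk, hkb⟩ := hR0 x
  refine ⟨c⁻¹ * γ * c, ⟨mul_mem (mul_mem (inv_mem hc) hγ) hc, ?_⟩, tr_conj c γ⟩
  have e : c⁻¹ * γ * c = k * (x⁻¹ * γ * x) * k⁻¹ := by
    rw [hk]
    group
  rw [e]
  exact bd_mul (bd_mul hkb hbd) (bd_inv hkb)

end Pool.Agent.Q121.SA
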