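import Pool.Agent.Q86.SA.Stm

/-!
# Project SA: the surface groups are generated by bounded sets
-/

set_option autoImplicit false

namespace Pool.Agent.Q121.SA

open Matrix Pool.Agent.Q86.SA
open scoped MatrixGroups

theorem mul_e (g h : SL(2, ℝ)) (i j : Fin 2) :
    (g * h).1 i j = g.1 i 0 * h.1 0 j + g.1 i 1 * h.1 1 j := by
  change (g.1 * h.1) i j = _
  rw [Matrix.mul_apply, Fin.sum_univ_two]

theorem det_e (g : SL(2, ℝ)) : g.1 0 0 * g.1 1 1 - g.1 0 1 * g.1 1 0 = 1 := by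
  have h := g.2
  rwa [Matrix.det_fin_two] at h

theorem inv00 (g : SL(2, ℝ)) : (g⁻¹).1 0 0 = g.1 1 1 := by
  change Matrix.adjugate g.1 0 0 = _
  rw [Matrix.adjugate_fin_two]
  rfl

theorem inv01 (g : SL(2, ℝ)) : (g⁻¹).1 0 1 = -g.1 0 1 := by
  change Matrix.adjugate g.1 0 1 = _
  rw [Matrix.adjugate_fin_two]
  rfl

theorem inv10 (g : SL(2, ℝ)) : (g⁻¹).1 1 0 = -g.1 1 0 := by
  change Matrix.adjugate g.1 1 0 = _
  rw [Matrix.adjugate_fin_two]
  rfl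

theorem inv11 (g : SL(2, ℝ)) : (g⁻¹).1 1 1 = g.1 0 0 := by
  change Matrix.adjugate g.1 1 1 = _
  rw [Matrix.adjugate_fin_two]
  rfl

theorem neg_e (g : SL(2, ℝ)) (i j : Fin 2) : (-g).1 i j = -g.1 i j := rfl

theorem sl_ext {g h : SL(2, ℝ)} (h00 : g.1 0 0 = h.1 0 0) (h01 : g.1 0 1 = h.1 0 1)
    (h10 : g.1 1 0 = h.1 1 0) (h11 : g.1 1 1 = h.1 1 1) : g = h := by
  apply Subtype.ext
  ext i j
  fin_cases i <;> fin_cases j
  · exact h00
  · exact h01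
  · exact h10
  · exact h11

theorem bd_nonneg {R : ℝ} {g : SL(2, ℝ)} (h : Bd R g) : 0 ≤ R := (abs_nonneg _).trans (h 0 0)

theorem bd_mono {R R' : ℝ} (hR : R ≤ R') {g : SL(2, ℝ)} (h : Bd R g) : Bd R' g :=
  fun i j => (h i j).trans hR

theorem bd_inv {R : ℝ} {g : SL(2, ℝ)} (h : Bd R g) : Bd R g⁻¹ := by
  intro i j
  fin_cases i <;> fin_cases j
  · change |(g⁻¹).1 0 0| ≤ R
    rw [inv00]
    exact h 1 1
  · change |(g⁻¹).1 0 1| ≤ R
    rw [inv01, abs_neg]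
    exact h 0 1
  · change |(g⁻¹).1 1 0| ≤ R
    rw [inv10, abs_neg]
    exact h 1 0
  · change |(g⁻¹).1 1 1| ≤ R
    rw [inv11]
    exact h 0 0

theorem bd_mul {R S : ℝ} {g h : SL(2, ℝ)} (hg : Bd R g) (hh : Bd S h) :
    Bd (2 * R * S) (g * h) := by
  intro i j
  rw [mul_e]
  have h1 : |g.1 i 0 * h.1 0 j| ≤ R * S := by
    rw [abs_mul]
    exact mul_le_mul (hg i 0) (hh 0 j) (abs_nonneg _) (bd_nonneg hg)
  have h2 : |g.1 i 1 * h.1 1 j| ≤ R * S := by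
    rw [abs_mul]
    exact mul_le_mul (hg i 1) (hh 1 j) (abs_nonneg _) (bd_nonneg hg)
  calc |g.1 i 0 * h.1 0 j + g.1 i 1 * h.1 1 j| ≤ |g.1 i 0 * h.1 0 j| + |g.1 i 1 * h.1 1 j| :=
        abs_add_le _ _
    _ ≤ 2 * R * S := by linarith

theorem bd_one : Bd 1 (1 : SL(2, ℝ)) := by
  intro i j
  change |(1 : Matrix (Fin 2) (Fin 2) ℝ) i j| ≤ 1
  rw [Matrix.one_apply]
  split_ifs <;> simp

/-- The upper elementary matrices. -/
def eU (t : ℝ) : SL(2, ℝ) := ⟨!![1, t; 0, 1], by rw [Matrix.det_fin_two_of]; ring⟩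

/-- The lower elementary matrices. -/
def eL (t : ℝ) : SL(2, ℝ) := ⟨!![1, 0; t, 1], by rw [Matrix.det_fin_two_of]; ring⟩

theorem eU_add (s t : ℝ) : eU (s + t) = eU s * eU t := by
  apply sl_ext <;> rw [mul_e] <;> simp [eU, add_comm]

theorem eL_add (s t : ℝ) : eL (s + t) = eL s * eL t := by
  apply sl_ext <;> rw [mul_e] <;> simp [eL]

theorem eU_bd {t : ℝ} (h : |t| ≤ 1) : Bd 1 (eU t) := by
  intro i j
  fin_cases i <;> fin_cases j <;> simp [eU, h]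

theorem eL_bd {t : ℝ} (h : |t| ≤ 1) : Bd 1 (eL t) := by
  intro i j
  fin_cases i <;> fin_cases j <;> simp [eL, h]

/-- The subgroup generated by the elements with entries bounded by one. -/
def Hb : Subgroup SL(2, ℝ) := Subgroup.closure {g | Bd 1 g}

theorem small_steps (e : ℝ → SL(2, ℝ)) (he : ∀ s t, e (s + t) = e s * e t)
    (hb : ∀ t : ℝ, |t| ≤ 1 → Bd 1 (e t)) (t : ℝ) : e t ∈ Hb := by
  obtain ⟨n, hn⟩ := exists_nat_ge |t|
  have hn0 : (0 : ℝ) < (n + 1 : ℕ) := by positivity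
  have h1 : e (t / (n + 1 : ℕ)) ∈ Hb := by
    refine Subgroup.subset_closure (hb _ ?_)
    rw [abs_div, abs_of_pos hn0, div_le_one hn0]
    push_cast
    linarith
  have h0 : e 0 = 1 := by
    have := he 0 0
    rw [add_zero] at this
    exact left_eq_mul.mp this
  have h2 : ∀ m : ℕ, e (m * (t / (n + 1 : ℕ))) = e (t / (n + 1 : ℕ)) ^ m := by
    intro m
    induction m with
    | zero => simp [h0]
    | succ m ih =>
      rw [pow_succ, ← ih, ← he]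
      congr 1
      push_cast
      ring
  have h3 := h2 (n + 1)
  rw [mul_div_cancel₀ _ hn0.ne'] at h3
  rw [h3]
  exact pow_mem h1 _

theorem mem_Hb (g : SL(2, ℝ)) : g ∈ Hb := by
  have hU := small_steps eU eU_add (fun t => eU_bd)
  have hL := small_steps eL eL_add (fun t => eL_bd)
  have key : ∀ g : SL(2, ℝ), g.1 1 0 ≠ 0 → g ∈ Hb := by
    intro g hc
    have hd := det_e g
    have e : g = eU ((g.1 0 0 - 1) / g.1 1 0) * eL (g.1 1 0) * eU ((g.1 1 1 - 1) / g.1 1 0) := by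
      apply sl_ext
      · rw [mul_e, mul_e, mul_e]
        simp [eU, eL]
        field_simp
        ring
      · rw [mul_e, mul_e, mul_e]
        simp [eU, eL]
        field_simp
        linear_combination -hd
      · rw [mul_e, mul_e, mul_e]
        simp [eU, eL]
      · rw [mul_e, mul_e, mul_e]
        simp [eU, eL]
        field_simp
        ring
    rw [e]
    exact mul_mem (mul_mem (hU _) (hL _)) (hU _)
  by_cases hc : g.1 1 0 = 0
  · have hd := det_e g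
    rw [hc, mul_zero, sub_zero] at hd
    have ha : g.1 0 0 ≠ 0 := by
      intro h
      rw [h, zero_mul] at hd
      exact zero_ne_one hd
    have h1 : (eL 1 * g).1 1 0 ≠ 0 := by
      rw [mul_e]
      simp [eL, hc, ha]
    have h2 := mul_mem (inv_mem (hL 1)) (key _ h1)
    rwa [inv_mul_cancel_left] at h2
  · exact key g hc

/-- The group is generated by a bounded set. -/
theorem fg (h1 : S_COMP) : S_FG := by
  intro Γ hΓ
  obtain ⟨R0, hR0⟩ := h1 Γ hΓ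
  set R : ℝ := max R0 1 with hR
  have hcomp : ∀ g : SL(2, ℝ), ∃ γ ∈ Γ, ∃ k : SL(2, ℝ), g = γ * k ∧ Bd R k := by
    intro g
    obtain ⟨γ, hγ, k, hk, hb⟩ := hR0 g
    exact ⟨γ, hγ, k, hk, bd_mono (le_max_left _ _) hb⟩
  have hR1 : 1 ≤ R := le_max_right _ _
  set R' : ℝ := 2 * (2 * R * 1) * R with hR'
  have hRR : R ≤ R' := by
    rw [hR']
    nlinarith
  refine ⟨R', ?_⟩
  set Λ := Subgroup.closure {γ : SL(2, ℝ) | γ ∈ Γ ∧ Bd R' γ} with hΛ
  have hΛΓ : Λ ≤ Γ := (Subgroup.closure_le Γ).mpr (fun γ h => h.1)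
  have step : ∀ y : SL(2, ℝ), (∃ l ∈ Λ, ∃ k : SL(2, ℝ), y = l * k ∧ Bd R k) →
      ∀ u : SL(2, ℝ), Bd 1 u → ∃ l ∈ Λ, ∃ k : SL(2, ℝ), y * u = l * k ∧ Bd R k := by
    rintro y ⟨l, hl, k, rfl, hk⟩ u hu
    obtain ⟨γ, hγ, k', hk', hb⟩ := hcomp (k * u)
    have e1 : γ = k * u * k'⁻¹ := by rw [hk', mul_inv_cancel_right]
    have hbd : Bd R' γ := by
      rw [e1]
      exact bd_mul (bd_mul hk hu) (bd_inv hb)
    refine ⟨l * γ, mul_mem hl (Subgroup.subset_closure ⟨hγ, hbd⟩), k', ?_, hb⟩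
    rw [mul_assoc, hk', mul_assoc]
  have all : ∀ y : SL(2, ℝ), y ∈ Hb → ∃ l ∈ Λ, ∃ k : SL(2, ℝ), y = l * k ∧ Bd R k := by
    intro y hy
    refine Subgroup.closure_induction_right (p := fun y _ => ∃ l ∈ Λ, ∃ k : SL(2, ℝ),
      y = l * k ∧ Bd R k) ?_ ?_ ?_ hy
    · exact ⟨1, one_mem _, 1, (mul_one 1).symm, bd_mono hR1 bd_one⟩
    · intro x _ u hu ih
      exact step x ih u hu
    · intro x _ u hu ih
      exact step x ih u⁻¹ (bd_inv hu)
  intro γ hγ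
  obtain ⟨l, hl, k, hk, hb⟩ := all γ (mem_Hb γ)
  have hkΓ : k ∈ Γ := by
    have : k = l⁻¹ * γ := by rw [hk, inv_mul_cancel_left]
    rw [this]
    exact mul_mem (inv_mem (hΛΓ hl)) hγ
  rw [hk]
  exact mul_mem hl (Subgroup.subset_closure ⟨hkΓ, bd_mono hRR hb⟩)

end Pool.Agent.Q121.SA
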