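import Pool.Agent.Q121.SA.FG

/-!
# Project SA: traces bound the entries after a conjugation
-/

set_option autoImplicit false

namespace Pool.Agent.Q121.SA

open Matrix Pool.Agent.Q86.SA
open scoped MatrixGroups

theorem tr_conj (h g : SL(2, ℝ)) : tr (h⁻¹ * g * h) = tr g := by
  unfold tr
  rw [mul_e, mul_e, mul_e, mul_e, mul_e, mul_e, inv00, inv01, inv10, inv11]
  linear_combination (g.1 0 0 + g.1 1 1) * det_e h

theorem two_lin {R δ l m u v : ℝ} (hδ : 0 < δ) (hm : 0 ≤ m) (hl : l ≤ R) (hlm : δ ≤ l - m)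
    (h1 : |u + v| ≤ R) (h2 : |l * u + m * v| ≤ R) (hm1 : m ≤ 1) :
    |u| ≤ 2 * R / δ ∧ |v| ≤ (R ^ 2 + R) / δ := by
  have hR : 0 ≤ R := (abs_nonneg _).trans h1
  constructor
  · rw [le_div_iff₀ hδ]
    have e : u * (l - m) = (l * u + m * v) - m * (u + v) := by ring
    calc |u| * δ ≤ |u| * (l - m) := mul_le_mul_of_nonneg_left hlm (abs_nonneg _)
      _ = |u * (l - m)| := by rw [abs_mul, abs_of_pos (lt_of_lt_of_le hδ hlm)]
      _ = |(l * u + m * v) - m * (u + v)| := by rw [e]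
      _ ≤ |l * u + m * v| + |m * (u + v)| := abs_sub _ _
      _ ≤ R + 1 * R := by
        rw [abs_mul, abs_of_nonneg hm]
        exact add_le_add h2 (mul_le_mul hm1 h1 (abs_nonneg _) (by norm_num))
      _ = 2 * R := by ring
  · rw [le_div_iff₀ hδ]
    have hl0 : 0 ≤ l := by linarith
    have e : v * (l - m) = l * (u + v) - (l * u + m * v) := by ring
    calc |v| * δ ≤ |v| * (l - m) := mul_le_mul_of_nonneg_left hlm (abs_nonneg _)
      _ = |v * (l - m)| := by rw [abs_mul, abs_of_pos (lt_of_lt_of_le hδ hlm)]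
      _ = |l * (u + v) - (l * u + m * v)| := by rw [e]
      _ ≤ |l * (u + v)| + |l * u + m * v| := abs_sub _ _
      _ ≤ R * R + R := by
        rw [abs_mul, abs_of_nonneg hl0]
        exact add_le_add (mul_le_mul hl h1 (abs_nonneg _) hR) h2
      _ = R ^ 2 + R := by ring

/-- The diagonal matrices. -/
noncomputable def dg (m : ℝ) (hm : m ≠ 0) : SL(2, ℝ) :=
  ⟨!![m, 0; 0, m⁻¹], by rw [Matrix.det_fin_two_of]; field_simp; ring⟩

theorem frame_core (R δ : ℝ) (hδ : 0 < δ) : ∃ C : ℝ, ∀ l m p q r w : ℝ,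
    l * m = 1 → 0 < m → m < l → 2 + δ ≤ l + m → l + m ≤ R → p * w - q * r = 1 → |q| = |r| →
    |p + w| ≤ R → |l * p + m * w| ≤ R → δ ≤ |q * r * (l - m) ^ 2| →
    l ≤ C ∧ m ≤ C ∧ (|p| ≤ C ∧ |q| ≤ C ∧ |r| ≤ C ∧ |w| ≤ C) ∧
    ∀ p1 q1 r1 w1 : ℝ, |p1 + w1| ≤ R → |l * p1 + m * w1| ≤ R →
      |(p * p1 + q * r1) + (r * q1 + w * w1)| ≤ R →
      |l * (p * p1 + q * r1) + m * (r * q1 + w * w1)| ≤ R →
      |p1| ≤ C ∧ |q1| ≤ C ∧ |r1| ≤ C ∧ |w1| ≤ C := by
  set a : ℝ := 2 * R / δ with ha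
  set b : ℝ := (R ^ 2 + R) / δ with hb
  set K : ℝ := 1 + R ^ 2 / δ with hK
  refine ⟨|R| + |a| + |b| + (|a| * |b| + 2) + (|a| + |a| ^ 2) * K + (|b| + |b| ^ 2) * K, ?_⟩
  intro l m p q r w hlm hm hml h1 h2 hdet hqr h3 h4 h5
  have hl0 : 0 < l := hm.trans hml
  have hm1 : m ≤ 1 := by nlinarith
  have hlR : l ≤ R := by linarith
  have hR0 : 0 ≤ R := by linarith
  have hsq : (l - m) ^ 2 = (l + m) ^ 2 - 4 := by linear_combination (-4) * hlm
  have hlmδ : δ ≤ l - m := by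
    by_contra hcon
    push Not at hcon
    nlinarith
  have ha0 : 0 ≤ a := by positivity
  have hb0 : 0 ≤ b := by positivity
  have hK1 : 1 ≤ K := by
    have : 0 ≤ R ^ 2 / δ := by positivity
    linarith
  have hK0 : 0 ≤ K := by linarith
  rw [abs_of_nonneg hR0, abs_of_nonneg ha0, abs_of_nonneg hb0]
  obtain ⟨hp, hw⟩ := two_lin hδ hm.le hlR hlmδ h3 h4 hm1
  have hqrK : 1 ≤ |q| * K := by
    have e1 : |q * r * (l - m) ^ 2| = |q| ^ 2 * (l - m) ^ 2 := by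
      rw [abs_mul, abs_mul, ← hqr, abs_of_nonneg (sq_nonneg (l - m))]
      ring
    rw [e1] at h5
    have h6 : (l - m) ^ 2 ≤ R ^ 2 := by
      apply pow_le_pow_left₀ (by linarith)
      linarith
    have h7 : δ ≤ |q| ^ 2 * R ^ 2 := h5.trans (mul_le_mul_of_nonneg_left h6 (sq_nonneg _))
    have h8 : 1 ≤ |q| ^ 2 * (R ^ 2 / δ) := by
      rw [← mul_div_assoc, le_div_iff₀ hδ, one_mul]
      exact h7
    rcases le_total 1 |q| with h | h
    · nlinarith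
    · have h9 : |q| ^ 2 ≤ |q| := by nlinarith [abs_nonneg q]
      have h10 : |q| ^ 2 * (R ^ 2 / δ) ≤ |q| * (R ^ 2 / δ) :=
        mul_le_mul_of_nonneg_right h9 (by positivity)
      have : |q| * K = |q| + |q| * (R ^ 2 / δ) := by rw [hK]; ring
      rw [this]
      linarith [abs_nonneg q]
  have hqb : |q| ≤ a * b + 2 := by
    have e1 : |q| ^ 2 = |q * r| := by
      rw [abs_mul, ← hqr]
      ring
    have e2 : q * r = p * w - 1 := by linear_combination -hdet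
    have h6 : |q| ^ 2 ≤ a * b + 1 := by
      rw [e1, e2]
      calc |p * w - 1| ≤ |p * w| + |(1 : ℝ)| := abs_sub _ _
        _ ≤ a * b + 1 := by
          rw [abs_mul, abs_one]
          have := mul_le_mul hp hw (abs_nonneg _) ha0
          linarith
    have h7 : |q| ≤ 1 + |q| ^ 2 := by nlinarith [sq_nonneg (|q| - 1), abs_nonneg q]
    linarith
  have t1 : 0 ≤ a * b := mul_nonneg ha0 hb0
  have t2 : 0 ≤ (a + a ^ 2) * K := by positivity
  have t3 : 0 ≤ (b + b ^ 2) * K := by positivity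
  refine ⟨by linarith, by linarith, ⟨by linarith, by linarith, by rw [← hqr]; linarith,
    by linarith⟩, ?_⟩
  intro p1 q1 r1 w1 g1 g2 g3 g4
  obtain ⟨hp1, hw1⟩ := two_lin hδ hm.le hlR hlmδ g1 g2 hm1
  obtain ⟨hu, hv⟩ := two_lin hδ hm.le hlR hlmδ g3 g4 hm1
  have hr1 : |r1| ≤ (a + a ^ 2) * K := by
    have e1 : |q| * |r1| ≤ a + a ^ 2 := by
      rw [← abs_mul]
      have e2 : q * r1 = (p * p1 + q * r1) - p * p1 := by ring
      calc |q * r1| = |(p * p1 + q * r1) - p * p1| := by rw [← e2]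
        _ ≤ |p * p1 + q * r1| + |p * p1| := abs_sub _ _
        _ ≤ a + a * a := by
          rw [abs_mul]
          exact add_le_add hu (mul_le_mul hp hp1 (abs_nonneg _) ha0)
        _ = a + a ^ 2 := by ring
    calc |r1| = |r1| * 1 := (mul_one _).symm
      _ ≤ |r1| * (|q| * K) := mul_le_mul_of_nonneg_left hqrK (abs_nonneg _)
      _ = (|q| * |r1|) * K := by ring
      _ ≤ (a + a ^ 2) * K := mul_le_mul_of_nonneg_right e1 hK0
  have hq1 : |q1| ≤ (b + b ^ 2) * K := by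
    have e1 : |q| * |q1| ≤ b + b ^ 2 := by
      rw [hqr, ← abs_mul]
      have e2 : r * q1 = (r * q1 + w * w1) - w * w1 := by ring
      calc |r * q1| = |(r * q1 + w * w1) - w * w1| := by rw [← e2]
        _ ≤ |r * q1 + w * w1| + |w * w1| := abs_sub _ _
        _ ≤ b + b * b := by
          rw [abs_mul]
          exact add_le_add hv (mul_le_mul hw hw1 (abs_nonneg _) hb0)
        _ = b + b ^ 2 := by ring
    calc |q1| = |q1| * 1 := (mul_one _).symm
      _ ≤ |q1| * (|q| * K) := mul_le_mul_of_nonneg_left hqrK (abs_nonneg _)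
      _ = (|q| * |q1|) * K := by ring
      _ ≤ (b + b ^ 2) * K := mul_le_mul_of_nonneg_right e1 hK0
  exact ⟨by linarith, by linarith, by linarith, by linarith⟩

/-- A conjugation which makes the entries next to the diagonal equal in absolute value. -/
theorem balance {q r : ℝ} (hq : q ≠ 0) (hr : r ≠ 0) : ∃ m : ℝ, m ≠ 0 ∧
    |q * (m⁻¹ * m⁻¹)| = |r * (m * m)| := by
  have hq' : 0 < |q| := abs_pos.mpr hq
  have hr' : 0 < |r| := abs_pos.mpr hr
  refine ⟨Real.sqrt (Real.sqrt (|q| / |r|)), ?_, ?_⟩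
  · positivity
  · have h1 : 0 < Real.sqrt (|q| / |r|) := by positivity
    rw [← mul_inv, Real.mul_self_sqrt h1.le, abs_mul, abs_mul, abs_inv, abs_of_pos h1]
    have h2 : Real.sqrt (|q| / |r|) * Real.sqrt (|q| / |r|) = |q| / |r| :=
      Real.mul_self_sqrt (by positivity)
    rw [mul_inv_eq_iff_eq_mul₀ h1.ne', mul_assoc, h2]
    field_simp

theorem conj_dg (m : ℝ) (hm : m ≠ 0) (g : SL(2, ℝ)) :
    ((dg m hm)⁻¹ * g * dg m hm).1 0 0 = g.1 0 0 ∧
    ((dg m hm)⁻¹ * g * dg m hm).1 0 1 = g.1 0 1 * (m⁻¹ * m⁻¹) ∧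
    ((dg m hm)⁻¹ * g * dg m hm).1 1 0 = g.1 1 0 * (m * m) ∧
    ((dg m hm)⁻¹ * g * dg m hm).1 1 1 = g.1 1 1 := by
  have d00 : (dg m hm).1 0 0 = m := rfl
  have d01 : (dg m hm).1 0 1 = 0 := rfl
  have d10 : (dg m hm).1 1 0 = 0 := rfl
  have d11 : (dg m hm).1 1 1 = m⁻¹ := rfl
  have hmm : m * m⁻¹ = 1 := mul_inv_cancel₀ hm
  refine ⟨?_, ?_, ?_, ?_⟩
  · simp only [mul_e, inv00, inv01, d00, d01, d10, d11]
    linear_combination (g.1 0 0) * hmm
  · simp only [mul_e, inv00, inv01, d00, d01, d10, d11]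
    ring
  · simp only [mul_e, inv10, inv11, d00, d01, d10, d11]
    ring
  · simp only [mul_e, inv10, inv11, d00, d01, d10, d11]
    linear_combination (g.1 1 1) * hmm

theorem tr_mul (A B : SL(2, ℝ)) : tr (A * B) =
    A.1 0 0 * B.1 0 0 + A.1 0 1 * B.1 1 0 + A.1 1 0 * B.1 0 1 + A.1 1 1 * B.1 1 1 := by
  unfold tr
  rw [mul_e, mul_e]
  ring

theorem comm_tr {A B : SL(2, ℝ)} {s l m : ℝ} (hss : s * s = 1) (hlm : l * m = 1)
    (a00 : A.1 0 0 = s * l) (a01 : A.1 0 1 = 0) (a10 : A.1 1 0 = 0) (a11 : A.1 1 1 = s * m) :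
    tr (A * B * A⁻¹ * B⁻¹) - 2 = -(B.1 0 1 * B.1 1 0 * (l - m) ^ 2) := by
  have hd := det_e B
  unfold tr
  simp only [mul_e, inv00, inv01, inv10, inv11, a00, a01, a10, a11]
  linear_combination (2 * l * m * B.1 0 0 * B.1 1 1 - B.1 0 1 * B.1 1 0 * (l ^ 2 + m ^ 2)) * hss +
    2 * l * m * hd + 2 * hlm

/-- FRAME. -/
theorem frame (h0 : S_DIAG) : S_FRAME := by
  intro R δ hδ
  obtain ⟨C, hC⟩ := frame_core R δ hδ
  refine ⟨C, ?_⟩
  intro A B hA hAR hB hAB hcR hc2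
  obtain ⟨x, ℓ, hℓ, hx, htr⟩ := h0 A (by linarith)
  set l : ℝ := Real.exp (ℓ / 2) with hl
  set m : ℝ := Real.exp (-(ℓ / 2)) with hm
  have hlm : l * m = 1 := by rw [hl, hm, ← Real.exp_add]; simp
  have hm0 : 0 < m := Real.exp_pos _
  have hml : m < l := by
    rw [hl, hm]
    exact Real.exp_lt_exp.mpr (by linarith)
  have htr' : |tr A| = l + m := by
    rw [htr, Real.cosh_eq]
    ring
  -- the sign
  obtain ⟨s, hs, hA0⟩ : ∃ s : ℝ, (s = 1 ∨ s = -1) ∧ ((x⁻¹ * A * x).1 0 0 = s * l ∧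
      (x⁻¹ * A * x).1 0 1 = 0 ∧ (x⁻¹ * A * x).1 1 0 = 0 ∧ (x⁻¹ * A * x).1 1 1 = s * m) := by
    rcases hx with hx | hx
    · refine ⟨1, Or.inl rfl, ?_⟩
      have e : x⁻¹ * A * x = flow ℓ := by rw [mul_assoc, hx, inv_mul_cancel_left]
      rw [e]
      refine ⟨?_, rfl, rfl, ?_⟩
      · rw [one_mul]; rfl
      · rw [one_mul]; rfl
    · refine ⟨-1, Or.inr rfl, ?_⟩
      have e : x⁻¹ * A * x = -flow ℓ := by
        rw [mul_assoc, hx, ← mul_neg, inv_mul_cancel_left]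
      rw [e]
      refine ⟨?_, ?_, ?_, ?_⟩
      · rw [neg_e, neg_one_mul]; rfl
      · rw [neg_e]; exact neg_zero
      · rw [neg_e]; exact neg_zero
      · rw [neg_e, neg_one_mul]; rfl
  have hss : s * s = 1 := by rcases hs with rfl | rfl <;> norm_num
  have hsabs : |s| = 1 := by rcases hs with rfl | rfl <;> norm_num
  have hcomm : ∀ (h a b : SL(2, ℝ)), h⁻¹ * (a * b) * h = (h⁻¹ * a * h) * (h⁻¹ * b * h) := by
    intro h a b
    group
  have hcc : ∀ (h : SL(2, ℝ)), h⁻¹ * (A * B * A⁻¹ * B⁻¹) * h =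
      (h⁻¹ * A * h) * (h⁻¹ * B * h) * (h⁻¹ * A * h)⁻¹ * (h⁻¹ * B * h)⁻¹ := by
    intro h
    group
  obtain ⟨a00, a01, a10, a11⟩ := hA0
  have hne : (x⁻¹ * B * x).1 0 1 * (x⁻¹ * B * x).1 1 0 ≠ 0 := by
    intro h
    have h1 := comm_tr (A := x⁻¹ * A * x) (B := x⁻¹ * B * x) hss hlm a00 a01 a10 a11
    rw [← hcc, tr_conj, h, zero_mul, neg_zero] at h1
    rw [h1, abs_zero] at hc2
    linarith
  obtain ⟨t, ht, hbal⟩ := balance (left_ne_zero_of_mul hne) (right_ne_zero_of_mul hne)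
  have hx2 : ∀ g : SL(2, ℝ), (x * dg t ht)⁻¹ * g * (x * dg t ht) =
      (dg t ht)⁻¹ * (x⁻¹ * g * x) * dg t ht := by
    intro g
    group
  have hconj := fun g => conj_dg t ht (x⁻¹ * g * x)
  simp only [← hx2] at hconj
  set h := x * dg t ht with hh
  obtain ⟨A00, A01, A10, A11⟩ := hconj A
  obtain ⟨B00, B01, B10, B11⟩ := hconj B
  rw [a00] at A00
  rw [a01, zero_mul] at A01
  rw [a10, zero_mul] at A10
  rw [a11] at A11
  rw [← B01, ← B10] at hbal
  have hdB := det_e (h⁻¹ * B * h)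
  have trAny : ∀ X : SL(2, ℝ), tr (A * X) =
      s * (l * (h⁻¹ * X * h).1 0 0 + m * (h⁻¹ * X * h).1 1 1) := by
    intro X
    rw [← tr_conj h, hcomm, tr_mul, A00, A01, A10, A11]
    ring
  obtain ⟨c1, c2, ⟨c3, c4, c5, c6⟩, c7⟩ := hC l m ((h⁻¹ * B * h).1 0 0) ((h⁻¹ * B * h).1 0 1)
    ((h⁻¹ * B * h).1 1 0) ((h⁻¹ * B * h).1 1 1) hlm hm0 hml (by rw [← htr']; exact hA)
    (by rw [← htr']; exact hAR) hdB hbal
    (by
      rw [← tr_conj h B] at hB
      exact hB)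
    (by
      rw [trAny, abs_mul, hsabs, one_mul] at hAB
      exact hAB)
    (by
      have h1 := comm_tr (A := h⁻¹ * A * h) (B := h⁻¹ * B * h) hss hlm A00 A01 A10 A11
      rw [← hcc, tr_conj] at h1
      rw [h1, abs_neg] at hc2
      exact hc2)
  have hC0 : 0 ≤ C := by linarith
  refine ⟨h, ?_, ?_, ?_⟩
  · intro i j
    fin_cases i <;> fin_cases j
    · change |(h⁻¹ * A * h).1 0 0| ≤ C
      rw [A00, abs_mul, hsabs, one_mul, abs_of_pos (hm0.trans hml)]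
      exact c1
    · change |(h⁻¹ * A * h).1 0 1| ≤ C
      rw [A01, abs_zero]
      exact hC0
    · change |(h⁻¹ * A * h).1 1 0| ≤ C
      rw [A10, abs_zero]
      exact hC0
    · change |(h⁻¹ * A * h).1 1 1| ≤ C
      rw [A11, abs_mul, hsabs, one_mul, abs_of_pos hm0]
      exact c2
  · intro i j
    fin_cases i <;> fin_cases j
    · exact c3
    · exact c4
    · exact c5
    · exact c6
  · intro X hX hAX hBX hABX
    have e1 : |(h⁻¹ * X * h).1 0 0 + (h⁻¹ * X * h).1 1 1| ≤ R := by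
      rw [← tr_conj h X] at hX
      exact hX
    have e2 : |l * (h⁻¹ * X * h).1 0 0 + m * (h⁻¹ * X * h).1 1 1| ≤ R := by
      rw [trAny, abs_mul, hsabs, one_mul] at hAX
      exact hAX
    have e3 : |((h⁻¹ * B * h).1 0 0 * (h⁻¹ * X * h).1 0 0 +
        (h⁻¹ * B * h).1 0 1 * (h⁻¹ * X * h).1 1 0) +
        ((h⁻¹ * B * h).1 1 0 * (h⁻¹ * X * h).1 0 1 +
        (h⁻¹ * B * h).1 1 1 * (h⁻¹ * X * h).1 1 1)| ≤ R := by
      rw [← tr_conj h, hcomm, tr_mul] at hBX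
      rw [← add_assoc]
      exact hBX
    have e4 : |l * ((h⁻¹ * B * h).1 0 0 * (h⁻¹ * X * h).1 0 0 +
        (h⁻¹ * B * h).1 0 1 * (h⁻¹ * X * h).1 1 0) +
        m * ((h⁻¹ * B * h).1 1 0 * (h⁻¹ * X * h).1 0 1 +
        (h⁻¹ * B * h).1 1 1 * (h⁻¹ * X * h).1 1 1)| ≤ R := by
      rw [mul_assoc, trAny, abs_mul, hsabs, one_mul, hcomm,
        mul_e (h⁻¹ * B * h) (h⁻¹ * X * h) 0 0, mul_e (h⁻¹ * B * h) (h⁻¹ * X * h) 1 1] at hABX
      exact hABX
    obtain ⟨d1, d2, d3, d4⟩ := c7 _ _ _ _ e1 e2 e3 e4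
    intro i j
    fin_cases i <;> fin_cases j
    · exact d1
    · exact d2
    · exact d3
    · exact d4

end Pool.Agent.Q121.SA
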