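import Pool.Agent.Q121.SA.PTS

/-!
# Project SA: the group is not elementary
-/

set_option autoImplicit false

namespace Pool.Agent.Q121.SA

open Matrix Pool.Agent.Q86.SA
open scoped MatrixGroups

theorem exists_bd (g : SL(2, ℝ)) : ∃ R : ℝ, Bd R g := by
  refine ⟨|g.1 0 0| + |g.1 0 1| + |g.1 1 0| + |g.1 1 1|, ?_⟩
  have h1 := abs_nonneg (g.1 0 0)
  have h2 := abs_nonneg (g.1 0 1)
  have h3 := abs_nonneg (g.1 1 0)
  have h4 := abs_nonneg (g.1 1 1)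
  intro i j
  fin_cases i <;> fin_cases j
  · change |g.1 0 0| ≤ _
    linarith
  · change |g.1 0 1| ≤ _
    linarith
  · change |g.1 1 0| ≤ _
    linarith
  · change |g.1 1 1| ≤ _
    linarith

theorem exists_ne_one (h1 : S_COMP) {Γ : Subgroup SL(2, ℝ)} (hΓ : IsSurface Γ) :
    ∃ a ∈ Γ, a ≠ 1 := by
  by_contra hcon
  push Not at hcon
  obtain ⟨R, hR⟩ := h1 Γ hΓ
  obtain ⟨γ, hγ, k, hk, hb⟩ := hR (eU (R + 1))
  rw [hcon γ hγ, one_mul] at hk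
  have h2 := hb 0 1
  rw [← hk] at h2
  have h3 : (eU (R + 1)).1 0 1 = R + 1 := rfl
  rw [h3] at h2
  have := le_abs_self (R + 1)
  linarith

/-- NONEL. -/
theorem nonel (h1 : S_COMP) (_h2 : S_FIN) (h3 : S_HYP) (h4 : S_DIAG) : S_NONEL := by
  intro Γ hΓ
  obtain ⟨a, ha, ha1⟩ := exists_ne_one h1 hΓ
  refine ⟨a, ha, ?_⟩
  by_contra hcon
  push Not at hcon
  obtain ⟨x, ℓ, hℓ, hx, htr⟩ := h4 a (h3 Γ hΓ a ha ha1)
  obtain ⟨s, hs, a00, a01, a10, a11⟩ := frame_form hx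
  set l : ℝ := Real.exp (ℓ / 2) with hl
  set m : ℝ := Real.exp (-(ℓ / 2)) with hm
  have hml : m < l := by
    rw [hl, hm]
    exact Real.exp_lt_exp.mpr (by linarith)
  have hss : s * s = 1 := by rcases hs with rfl | rfl <;> norm_num
  have hs0 : s ≠ 0 := by rintro rfl; norm_num at hss
  -- all elements are diagonal in the frame
  have hdiag : ∀ b ∈ Γ, (x⁻¹ * b * x).1 0 1 = 0 ∧ (x⁻¹ * b * x).1 1 0 = 0 := by
    intro b hb
    have h5 : a * b * a⁻¹ * b⁻¹ = 1 := by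
      by_contra hne
      have h6 := h3 Γ hΓ (a * b * a⁻¹ * b⁻¹)
        (mul_mem (mul_mem (mul_mem ha hb) (inv_mem ha)) (inv_mem hb)) hne
      rw [hcon b hb, abs_two] at h6
      exact lt_irrefl _ h6
    have h6 : a * b = b * a := by
      have : a * b = (a * b * a⁻¹ * b⁻¹) * (b * a) := by group
      rw [this, h5, one_mul]
    have h7 : (x⁻¹ * a * x) * (x⁻¹ * b * x) = (x⁻¹ * b * x) * (x⁻¹ * a * x) := by
      have e1 : (x⁻¹ * a * x) * (x⁻¹ * b * x) = x⁻¹ * (a * b) * x := by group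
      have e2 : (x⁻¹ * b * x) * (x⁻¹ * a * x) = x⁻¹ * (b * a) * x := by group
      rw [e1, e2, h6]
    have h01 : ((x⁻¹ * a * x) * (x⁻¹ * b * x)).1 0 1 =
        ((x⁻¹ * b * x) * (x⁻¹ * a * x)).1 0 1 := by rw [h7]
    have h10 : ((x⁻¹ * a * x) * (x⁻¹ * b * x)).1 1 0 =
        ((x⁻¹ * b * x) * (x⁻¹ * a * x)).1 1 0 := by rw [h7]
    rw [mul_e (x⁻¹ * a * x), mul_e (x⁻¹ * b * x), a00, a01, a11] at h01
    rw [mul_e (x⁻¹ * a * x), mul_e (x⁻¹ * b * x), a00, a10, a11] at h10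
    constructor
    · have h8 : s * (l - m) * (x⁻¹ * b * x).1 0 1 = 0 := by linear_combination h01
      exact (mul_eq_zero.mp h8).resolve_left (mul_ne_zero hs0 (sub_ne_zero.mpr hml.ne'))
    · have h8 : s * (l - m) * (x⁻¹ * b * x).1 1 0 = 0 := by linear_combination -h10
      exact (mul_eq_zero.mp h8).resolve_left (mul_ne_zero hs0 (sub_ne_zero.mpr hml.ne'))
  obtain ⟨R, hR⟩ := h1 Γ hΓ
  obtain ⟨R', hR'⟩ := exists_bd x⁻¹
  set C := 2 * R' * R with hC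
  obtain ⟨γ, hγ, k, hk, hb⟩ := hR (x * eU (C ^ 2 + 1))
  have hbd : Bd C (x⁻¹ * k) := bd_mul hR' hb
  have e1 : x⁻¹ * k = (x⁻¹ * γ⁻¹ * x) * eU (C ^ 2 + 1) := by
    have : k = γ⁻¹ * (x * eU (C ^ 2 + 1)) := by rw [hk, inv_mul_cancel_left]
    rw [this]
    group
  obtain ⟨d01, d10⟩ := hdiag γ⁻¹ (inv_mem hγ)
  have hdet := det_e (x⁻¹ * γ⁻¹ * x)
  have e01 := hbd 0 1
  have e11 := hbd 1 1
  have f01 : (eU (C ^ 2 + 1)).1 0 1 = C ^ 2 + 1 := rfl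
  have f11 : (eU (C ^ 2 + 1)).1 1 1 = 1 := rfl
  rw [e1, mul_e (x⁻¹ * γ⁻¹ * x), d01, f01, f11] at e01
  rw [e1, mul_e (x⁻¹ * γ⁻¹ * x), d10, f01, f11] at e11
  rw [d01, zero_mul, sub_zero] at hdet
  rw [zero_mul, add_zero] at e01
  rw [zero_mul, zero_add, mul_one] at e11
  have hC0 : 0 ≤ C := (abs_nonneg _).trans e11
  have h9 : (C ^ 2 + 1) ≤ C * C := by
    calc C ^ 2 + 1 = |(x⁻¹ * γ⁻¹ * x).1 0 0 * (C ^ 2 + 1) * (x⁻¹ * γ⁻¹ * x).1 1 1| := by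
          have : (x⁻¹ * γ⁻¹ * x).1 0 0 * (C ^ 2 + 1) * (x⁻¹ * γ⁻¹ * x).1 1 1 = C ^ 2 + 1 := by
            linear_combination (C ^ 2 + 1) * hdet
          rw [this, abs_of_pos (by positivity)]
      _ ≤ C * C := by
          rw [abs_mul]
          exact mul_le_mul e01 e11 (abs_nonneg _) hC0
  nlinarith

end Pool.Agent.Q121.SA
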