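import Pool.Agent.Q121.SA.FG

/-!
# Project SA: bounded traces allow only finitely many outer automorphisms
-/

set_option autoImplicit false

namespace Pool.Agent.Q121.SA

open Matrix Pool.Agent.Q86.SA
open scoped MatrixGroups

theorem finite_gap (F : Set ℝ) (hF : F.Finite) :
    ∃ δ : ℝ, 0 < δ ∧ ∀ t ∈ F, 2 < |t| → 2 + δ ≤ |t| := by
  induction F, hF using Set.Finite.induction_on with
  | empty => exact ⟨1, one_pos, fun t ht => absurd ht (Set.notMem_empty t)⟩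
  | @insert a s _ _ ih =>
    obtain ⟨δ, hδ, h⟩ := ih
    by_cases ha : 2 < |a|
    · refine ⟨min δ (|a| - 2), lt_min hδ (by linarith), ?_⟩
      rintro t (rfl | ht) h2
      · have := min_le_right δ (|t| - 2)
        linarith
      · have := min_le_left δ (|a| - 2)
        linarith [h t ht h2]
    · refine ⟨δ, hδ, ?_⟩
      rintro t (rfl | ht) h2
      · exact absurd h2 ha
      · exact h t ht h2

theorem gen_top {Γ : Subgroup SL(2, ℝ)} {R : ℝ}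
    (h : Γ ≤ Subgroup.closure {γ : SL(2, ℝ) | γ ∈ Γ ∧ Bd R γ}) :
    Subgroup.closure {c : Γ | Bd R c.1} = ⊤ := by
  have e : (Subgroup.closure {c : Γ | Bd R c.1}).map Γ.subtype =
      Subgroup.closure {γ : SL(2, ℝ) | γ ∈ Γ ∧ Bd R γ} := by
    rw [MonoidHom.map_closure]
    congr 1
    ext γ
    constructor
    · rintro ⟨c, hc, rfl⟩
      exact ⟨c.2, hc⟩
    · rintro ⟨h1, h2⟩
      exact ⟨⟨γ, h1⟩, h2, rfl⟩
  rw [eq_top_iff]
  rintro γ _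
  have h1 := h γ.2
  rw [← e] at h1
  obtain ⟨y, hy, hy'⟩ := h1
  have : y = γ := Subtype.ext hy'
  rw [← this]
  exact hy

theorem mk_conj {Γ : Subgroup SL(2, ℝ)} (g : Γ) (ψ : MulAut Γ) :
    (QuotientGroup.mk (MulAut.conj g * ψ) : OutGroup Γ) = QuotientGroup.mk ψ := by
  rw [QuotientGroup.eq]
  refine ⟨ψ⁻¹ g⁻¹, MulEquiv.ext (fun x => ?_)⟩
  have e1 : (MulAut.conj (ψ⁻¹ g⁻¹) : MulAut Γ) x = ψ⁻¹ g⁻¹ * x * (ψ⁻¹ g⁻¹)⁻¹ :=
    MulAut.conj_apply _ _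
  have e2 : ((MulAut.conj g * ψ)⁻¹ * ψ : MulAut Γ) x = ψ⁻¹ (g⁻¹ * ψ x * g) := by
    rw [_root_.mul_inv_rev, MulAut.mul_apply, MulAut.mul_apply, ← map_inv, MulAut.conj_apply, inv_inv]
  rw [e1, e2, map_mul, map_mul, map_inv, inv_inv, MulAut.inv_apply_self]

theorem fin_sub (h2 : S_FIN) {Γ : Subgroup SL(2, ℝ)} (hΓ : IsSurface Γ) (R : ℝ) :
    {c : Γ | Bd R c.1}.Finite := by
  refine Set.Finite.of_finite_image (f := Subtype.val) ((h2 Γ hΓ R).subset ?_)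
    (Subtype.val_injective.injOn)
  rintro _ ⟨c, hc, rfl⟩
  exact ⟨c.2, hc⟩

/-- OUT. -/
theorem out (h1 : S_COMP) (h2 : S_FIN) (h3 : S_HYP) (h4 : S_SPEC) (h5 : S_NONEL) (h6 : S_FG)
    (h7 : S_FRAME) : S_OUT := by
  intro Γ hΓ bd
  obtain ⟨a, ha, b, hb, hab⟩ := h5 Γ hΓ
  obtain ⟨R1, hR1⟩ := h6 Γ hΓ
  obtain ⟨R0, hR0⟩ := h1 Γ hΓ
  have htop := gen_top hR1
  have hSfin : {c : Γ | Bd R1 c.1}.Finite := fin_sub h2 hΓ R1
  set a' : Γ := ⟨a, ha⟩ with ha'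
  set b' : Γ := ⟨b, hb⟩ with hb'
  -- the bound
  set T : Set Γ := {a', b', a' * b', a' * b' * a'⁻¹ * b'⁻¹} ∪ {c : Γ | Bd R1 c.1} ∪
    (fun c => a' * c) '' {c : Γ | Bd R1 c.1} ∪ (fun c => b' * c) '' {c : Γ | Bd R1 c.1} ∪
    (fun c => a' * b' * c) '' {c : Γ | Bd R1 c.1} with hT
  have hTfin : T.Finite := by
    refine Set.Finite.union (Set.Finite.union (Set.Finite.union (Set.Finite.union ?_ hSfin)
      (hSfin.image _)) (hSfin.image _)) (hSfin.image _)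
    exact Set.toFinite _
  obtain ⟨R, hR⟩ := (hTfin.image bd).bddAbove
  have hRb : ∀ t ∈ T, bd t ≤ R := fun t ht => hR ⟨t, ht, rfl⟩
  obtain ⟨δ, hδ, hgap⟩ := finite_gap _ (h4 Γ hΓ R)
  have hgap' : ∀ γ : Γ, γ ≠ 1 → |tr γ.1| ≤ R → 2 + δ ≤ |tr γ.1| := by
    intro γ hγ hb
    exact hgap _ ⟨γ.1, γ.2, rfl, hb⟩ (h3 Γ hΓ γ.1 γ.2 (fun h => hγ (Subtype.ext h)))
  obtain ⟨C, hC⟩ := h7 R δ hδ
  set C' : ℝ := 2 * (2 * R0 * C) * R0 with hC'
  -- the finite set of the automorphisms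
  have hFfin : {c : Γ | Bd C' c.1}.Finite := fin_sub h2 hΓ C'
  have hΘ : {θ : MulAut Γ | ∀ c : Γ, Bd R1 c.1 → Bd C' (θ c).1}.Finite := by
    have : Finite {c : Γ | Bd R1 c.1} := hSfin
    refine Set.Finite.of_finite_image
      (f := fun (θ : MulAut Γ) (c : {c : Γ | Bd R1 c.1}) => θ c.1)
      ((Set.Finite.pi (fun _ : {c : Γ | Bd R1 c.1} => hFfin)).subset ?_) ?_
    · rintro _ ⟨θ, hθ, rfl⟩
      rw [Set.mem_pi]
      intro c _
      exact hθ c.1 c.2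
    · intro θ _ θ' _ h
      have e : θ.toMonoidHom = θ'.toMonoidHom := by
        refine MonoidHom.eq_of_eqOn_dense htop ?_
        intro c hc
        exact congrFun h ⟨c, hc⟩
      exact MulEquiv.ext (fun x => DFunLike.congr_fun e x)
  refine (hΘ.image (QuotientGroup.mk : MulAut Γ → OutGroup Γ)).subset ?_
  rintro _ ⟨ψ, hψ, rfl⟩
  -- the traces
  have hψR : ∀ t ∈ T, |tr (ψ t).1| ≤ R := fun t ht => (hψ t).trans (hRb t ht)
  have hcom1 : a' * b' * a'⁻¹ * b'⁻¹ ≠ 1 := by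
    intro h
    apply hab
    have h' : a * b * a⁻¹ * b⁻¹ = 1 := congrArg Subtype.val h
    rw [h']
    change (1 : Matrix (Fin 2) (Fin 2) ℝ) 0 0 + (1 : Matrix (Fin 2) (Fin 2) ℝ) 1 1 = 2
    norm_num
  have ha1 : a' ≠ 1 := by
    intro h
    apply hcom1
    rw [h]
    group
  have hinj : ∀ t : Γ, t ≠ 1 → ψ t ≠ 1 := by
    intro t ht h
    apply ht
    have := ψ.injective (h.trans (map_one ψ).symm)
    exact this
  have mA : a' ∈ T := by rw [hT]; simp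
  have mB : b' ∈ T := by rw [hT]; simp
  have mAB : a' * b' ∈ T := by rw [hT]; simp
  have mC : a' * b' * a'⁻¹ * b'⁻¹ ∈ T := by rw [hT]; simp
  have tA := hψR a' mA
  have tB := hψR b' mB
  have tAB := hψR (a' * b') mAB
  have tC := hψR (a' * b' * a'⁻¹ * b'⁻¹) mC
  have gA := hgap' (ψ a') (hinj a' ha1) tA
  have gC := hgap' (ψ (a' * b' * a'⁻¹ * b'⁻¹)) (hinj _ hcom1) tC
  have eAB : (ψ (a' * b')).1 = (ψ a').1 * (ψ b').1 := by rw [map_mul]; rfl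
  have eC : (ψ (a' * b' * a'⁻¹ * b'⁻¹)).1 =
      (ψ a').1 * (ψ b').1 * (ψ a').1⁻¹ * (ψ b').1⁻¹ := by
    rw [map_mul, map_mul, map_mul, map_inv, map_inv]
    rfl
  rw [eAB] at tAB
  rw [eC] at tC gC
  have gC' : δ ≤ |tr ((ψ a').1 * (ψ b').1 * (ψ a').1⁻¹ * (ψ b').1⁻¹) - 2| := by
    have h8 := abs_sub_abs_le_abs_sub (tr ((ψ a').1 * (ψ b').1 * (ψ a').1⁻¹ * (ψ b').1⁻¹)) 2
    rw [abs_two] at h8
    linarith
  obtain ⟨h, _, _, hh⟩ := hC (ψ a').1 (ψ b').1 gA tA tB tAB tC gC'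
  obtain ⟨g, hg, k, hk, hkb⟩ := hR0 h
  have hbound : ∀ c : Γ, Bd R1 c.1 → Bd C' ((MulAut.conj (⟨g, hg⟩ : Γ)⁻¹ * ψ) c).1 := by
    intro c hc
    have m1 : c ∈ T := by
      rw [hT]
      exact Or.inl (Or.inl (Or.inl (Or.inr hc)))
    have m2 : a' * c ∈ T := by
      rw [hT]
      exact Or.inl (Or.inl (Or.inr ⟨c, hc, rfl⟩))
    have m3 : b' * c ∈ T := by
      rw [hT]
      exact Or.inl (Or.inr ⟨c, hc, rfl⟩)
    have m4 : a' * b' * c ∈ T := by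
      rw [hT]
      exact Or.inr ⟨c, hc, rfl⟩
    have t1 := hψR _ m1
    have t2 := hψR _ m2
    have t3 := hψR _ m3
    have t4 := hψR _ m4
    rw [map_mul] at t2 t3
    rw [map_mul, map_mul] at t4
    have hX := hh (ψ c).1 t1 t2 t3 t4
    have e1 : ((MulAut.conj (⟨g, hg⟩ : Γ)⁻¹ * ψ) c).1 = k * (h⁻¹ * (ψ c).1 * h) * k⁻¹ := by
      rw [MulAut.mul_apply, MulAut.conj_apply]
      change g⁻¹ * (ψ c).1 * g⁻¹⁻¹ = _
      rw [hk]
      group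
    rw [e1]
    exact bd_mul (bd_mul hkb hX) (bd_inv hkb)
  exact ⟨MulAut.conj (⟨g, hg⟩ : Γ)⁻¹ * ψ, hbound, mk_conj _ ψ⟩

end Pool.Agent.Q121.SA
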