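import Pool.Agent.Q121.SA.FRAME

/-!
# Project SA: a hyperbolic element and elements in general position
-/

set_option autoImplicit false

namespace Pool.Agent.Q121.SA

open Matrix Pool.Agent.Q86.SA
open scoped MatrixGroups

/-- The homogeneous Vandermonde determinant. -/
def van (x : Fin 3 → Fin 2 → ℝ) : ℝ :=
  (x 0 0 * x 1 1 - x 1 0 * x 0 1) * (x 0 0 * x 2 1 - x 2 0 * x 0 1) *
    (x 1 0 * x 2 1 - x 2 0 * x 1 1)

theorem det_sq (x y : Fin 3 → Fin 2 → ℝ) :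
    Matrix.det (Matrix.of fun i j : Fin 3 => (x i 0 * y j 0 + x i 1 * y j 1) ^ 2) =
      2 * van x * van y := by
  rw [Matrix.det_fin_three]
  simp only [Matrix.of_apply, van]
  ring

/-- The form of the matrix of a hyperbolic element in the frame of its eigenvectors. -/
theorem frame_form {A x : SL(2, ℝ)} {ℓ : ℝ} (hx : A * x = x * flow ℓ ∨ A * x = -(x * flow ℓ)) :
    ∃ s : ℝ, (s = 1 ∨ s = -1) ∧ (x⁻¹ * A * x).1 0 0 = s * Real.exp (ℓ / 2) ∧
      (x⁻¹ * A * x).1 0 1 = 0 ∧ (x⁻¹ * A * x).1 1 0 = 0 ∧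
      (x⁻¹ * A * x).1 1 1 = s * Real.exp (-(ℓ / 2)) := by
  rcases hx with hx | hx
  · refine ⟨1, Or.inl rfl, ?_⟩
    have e : x⁻¹ * A * x = flow ℓ := by rw [mul_assoc, hx, inv_mul_cancel_left]
    rw [e]
    refine ⟨?_, rfl, rfl, ?_⟩
    · rw [one_mul]; rfl
    · rw [one_mul]; rfl
  · refine ⟨-1, Or.inr rfl, ?_⟩
    have e : x⁻¹ * A * x = -flow ℓ := by
      rw [mul_assoc, hx, ← mul_neg, inv_mul_cancel_left]
    rw [e]
    refine ⟨?_, ?_, ?_, ?_⟩
    · rw [neg_e, neg_one_mul]; rfl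
    · rw [neg_e]; exact neg_zero
    · rw [neg_e]; exact neg_zero
    · rw [neg_e, neg_one_mul]; rfl

theorem one_e00 : (1 : SL(2, ℝ)).1 0 0 = 1 := rfl
theorem one_e01 : (1 : SL(2, ℝ)).1 0 1 = 0 := rfl
theorem one_e10 : (1 : SL(2, ℝ)).1 1 0 = 0 := rfl
theorem one_e11 : (1 : SL(2, ℝ)).1 1 1 = 1 := rfl

theorem tr_one : tr (1 : SL(2, ℝ)) = 2 := by
  unfold tr
  rw [one_e00, one_e11]
  norm_num

/-- PTS. -/
theorem pts (h1 : S_HYP) (h2 : S_DIAG) (h3 : S_NONEL) : S_PTS := by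
  intro Γ hΓ
  obtain ⟨a, ha, b, hb, hab⟩ := h3 Γ hΓ
  have ha1 : a ≠ 1 := by
    rintro rfl
    apply hab
    have e : (1 : SL(2, ℝ)) * b * 1⁻¹ * b⁻¹ = 1 := by group
    rw [e, tr_one]
  have hb1 : b ≠ 1 := by
    rintro rfl
    apply hab
    have e : a * (1 : SL(2, ℝ)) * a⁻¹ * 1⁻¹ = 1 := by group
    rw [e, tr_one]
  obtain ⟨g, ℓ, hℓ, hg, htr⟩ := h2 a (h1 Γ hΓ a ha ha1)
  obtain ⟨s, hs, a00, a01, a10, a11⟩ := frame_form hg
  set l : ℝ := Real.exp (ℓ / 2) with hl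
  set m : ℝ := Real.exp (-(ℓ / 2)) with hm
  have hlm : l * m = 1 := by rw [hl, hm, ← Real.exp_add]; simp
  have hm0 : 0 < m := Real.exp_pos _
  have hl0 : 0 < l := Real.exp_pos _
  have hml : m < l := by
    rw [hl, hm]
    exact Real.exp_lt_exp.mpr (by linarith)
  have hss : s * s = 1 := by rcases hs with rfl | rfl <;> norm_num
  have hs0 : s ≠ 0 := by rintro rfl; norm_num at hss
  have hconj : ∀ u v : SL(2, ℝ), g⁻¹ * (u * v) * g = (g⁻¹ * u * g) * (g⁻¹ * v * g) := by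
    intro u v
    group
  have hcc : g⁻¹ * (a * b * a⁻¹ * b⁻¹) * g =
      (g⁻¹ * a * g) * (g⁻¹ * b * g) * (g⁻¹ * a * g)⁻¹ * (g⁻¹ * b * g)⁻¹ := by group
  set B := g⁻¹ * b * g with hB
  have hqr : B.1 0 1 * B.1 1 0 ≠ 0 := by
    intro h
    have h4 := comm_tr (A := g⁻¹ * a * g) (B := B) hss hlm a00 a01 a10 a11
    rw [← hcc, tr_conj, h, zero_mul, neg_zero] at h4
    exact hab (by linarith)
  have hq : B.1 0 1 ≠ 0 := left_ne_zero_of_mul hqr
  have hr : B.1 1 0 ≠ 0 := right_ne_zero_of_mul hqr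
  have htrB : tr B ≠ 0 := by
    rw [hB, tr_conj]
    intro h
    have h4 := h1 Γ hΓ b hb hb1
    rw [h, abs_zero] at h4
    linarith
  have key : ∃ c ∈ Γ, ∃ d ∈ Γ,
      van (fun i => ![fun j => (1 : SL(2, ℝ)).1 0 j, fun j => B.1 0 j,
        fun j => (g⁻¹ * c * g).1 0 j] i) ≠ 0 ∧
      van (fun i => ![fun j => (1 : SL(2, ℝ)).1 j 0, fun j => B.1 j 0,
        fun j => (g⁻¹ * d * g).1 j 0] i) ≠ 0 := by
    by_cases hp : B.1 0 0 = 0
    · have hw : B.1 1 1 ≠ 0 := by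
        intro h
        apply htrB
        unfold tr
        rw [hp, h, add_zero]
      refine ⟨b * b, mul_mem hb hb, b * b, mul_mem hb hb, ?_, ?_⟩
      · rw [hconj, ← hB]
        have e : van (fun i => ![fun j => (1 : SL(2, ℝ)).1 0 j, fun j => B.1 0 j,
            fun j => (B * B).1 0 j] i) = -(B.1 0 1 ^ 4 * B.1 1 0 * B.1 1 1) := by
          simp only [van, Matrix.cons_val_zero, Matrix.cons_val_one, Matrix.cons_val,
            one_e00, one_e01, mul_e, hp]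
          ring
        rw [e]
        exact neg_ne_zero.mpr (mul_ne_zero (mul_ne_zero (pow_ne_zero _ hq) hr) hw)
      · rw [hconj, ← hB]
        have e : van (fun i => ![fun j => (1 : SL(2, ℝ)).1 j 0, fun j => B.1 j 0,
            fun j => (B * B).1 j 0] i) = -(B.1 1 0 ^ 4 * B.1 0 1 * B.1 1 1) := by
          simp only [van, Matrix.cons_val_zero, Matrix.cons_val_one, Matrix.cons_val,
            one_e00, one_e10, mul_e, hp]
          ring
        rw [e]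
        exact neg_ne_zero.mpr (mul_ne_zero (mul_ne_zero (pow_ne_zero _ hr) hq) hw)
    · refine ⟨b * a, mul_mem hb ha, a * b, mul_mem ha hb, ?_, ?_⟩
      · rw [hconj, ← hB]
        have e : van (fun i => ![fun j => (1 : SL(2, ℝ)).1 0 j, fun j => B.1 0 j,
            fun j => (B * (g⁻¹ * a * g)).1 0 j] i) =
            s * s * m * (m - l) * (B.1 0 1 ^ 3 * B.1 0 0) := by
          simp only [van, Matrix.cons_val_zero, Matrix.cons_val_one, Matrix.cons_val,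
            one_e00, one_e01, mul_e (B) (g⁻¹ * a * g), a00, a01, a10, a11]
          ring
        rw [e, hss, one_mul]
        exact mul_ne_zero (mul_ne_zero hm0.ne' (sub_ne_zero.mpr hml.ne))
          (mul_ne_zero (pow_ne_zero _ hq) hp)
      · rw [hconj, ← hB]
        have e : van (fun i => ![fun j => (1 : SL(2, ℝ)).1 j 0, fun j => B.1 j 0,
            fun j => ((g⁻¹ * a * g) * B).1 j 0] i) =
            s * s * m * (m - l) * (B.1 1 0 ^ 3 * B.1 0 0) := by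
          simp only [van, Matrix.cons_val_zero, Matrix.cons_val_one, Matrix.cons_val,
            one_e00, one_e10, mul_e (g⁻¹ * a * g) B, a00, a01, a10, a11]
          ring
        rw [e, hss, one_mul]
        exact mul_ne_zero (mul_ne_zero hm0.ne' (sub_ne_zero.mpr hml.ne))
          (mul_ne_zero (pow_ne_zero _ hr) hp)
  obtain ⟨c, hc, d, hd, hv1, hv2⟩ := key
  refine ⟨⟨a, ha⟩, g, ℓ, hℓ, hg, ![1, ⟨b, hb⟩, ⟨c, hc⟩], ![1, ⟨b, hb⟩, ⟨d, hd⟩], ?_⟩
  have e1 : ∀ i j : Fin 3, (g⁻¹ * (((![1, ⟨b, hb⟩, ⟨c, hc⟩] : Fin 3 → Γ) i).1 *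
      ((![1, ⟨b, hb⟩, ⟨d, hd⟩] : Fin 3 → Γ) j).1) * g).1 0 0 =
      (fun i => ![fun j => (1 : SL(2, ℝ)).1 0 j, fun j => B.1 0 j,
        fun j => (g⁻¹ * c * g).1 0 j] i) i 0 *
      (fun i => ![fun j => (1 : SL(2, ℝ)).1 j 0, fun j => B.1 j 0,
        fun j => (g⁻¹ * d * g).1 j 0] i) j 0 +
      (fun i => ![fun j => (1 : SL(2, ℝ)).1 0 j, fun j => B.1 0 j,
        fun j => (g⁻¹ * c * g).1 0 j] i) i 1 *
      (fun i => ![fun j => (1 : SL(2, ℝ)).1 j 0, fun j => B.1 j 0,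
        fun j => (g⁻¹ * d * g).1 j 0] i) j 1 := by
    intro i j
    rw [hconj, mul_e]
    fin_cases i <;> fin_cases j <;> simp [hB]
  simp only [e1]
  rw [det_sq]
  exact mul_ne_zero (mul_ne_zero two_ne_zero hv1) hv2

end Pool.Agent.Q121.SA
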