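import Pool.Agent.Q121.SA.FRAME

/-!
# Project SA: a closed geodesic is cut into pieces of length between one and two
-/

set_option autoImplicit false

namespace Pool.Agent.Q121.SA

open Matrix Pool.Agent.Q86.SA
open scoped MatrixGroups

theorem flow_add (s t : ℝ) : flow (s + t) = flow s * flow t := by
  apply sl_ext
  · rw [mul_e]
    simp only [flow]
    simp
    rw [← Real.exp_add]
    congr 1
    ring
  · rw [mul_e]
    simp [flow]
  · rw [mul_e]
    simp [flow]
  · rw [mul_e]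
    simp only [flow]
    simp
    rw [← Real.exp_add]
    congr 1
    ring

theorem flow_zero : flow 0 = 1 := by
  have h := flow_add 0 0
  rw [add_zero] at h
  exact left_eq_mul.mp h

theorem prod_tele {G : Type*} [Group G] (u : ℕ → G) (n : ℕ) :
    (List.ofFn (fun j : Fin n => (u j)⁻¹ * u (j + 1))).prod = (u 0)⁻¹ * u n := by
  induction n with
  | zero => simp
  | succ n ih =>
    rw [List.ofFn_succ', List.concat_eq_append, List.prod_append, List.prod_singleton]
    simp only [Fin.val_castSucc, Fin.val_last]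
    rw [ih]
    group

/-- SLICE. -/
theorem slice (h1 : S_COMP) (h2 : S_DIAG) : S_SLICE := by
  intro Γ hΓ
  obtain ⟨R, hR⟩ := h1 Γ hΓ
  refine ⟨R, ?_⟩
  intro γ hγ
  have hc1 : (1 : ℝ) < Real.cosh (1 / 2) := Real.one_lt_cosh.mpr (by norm_num)
  obtain ⟨x, ℓ, hℓ, hx, htr⟩ := h2 γ.1 (by linarith)
  have hℓ1 : 1 ≤ ℓ := by
    rw [htr] at hγ
    have h3 : Real.cosh (1 / 2) ≤ Real.cosh (ℓ / 2) := by linarith
    rw [Real.cosh_le_cosh, abs_of_pos (by norm_num), abs_of_pos (by linarith)] at h3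
    linarith
  set n := ⌊ℓ⌋₊ with hn
  have hn1 : 1 ≤ n := by
    rw [hn]
    exact Nat.le_floor (by exact_mod_cast hℓ1)
  have hnℓ : (n : ℝ) ≤ ℓ := Nat.floor_le hℓ.le
  have hℓn : ℓ < n + 1 := Nat.lt_floor_add_one ℓ
  have hn1' : (1 : ℝ) ≤ n := by exact_mod_cast hn1
  have hn0 : (0 : ℝ) < n := by linarith
  set L := ℓ / n with hL
  have hnL : n * L = ℓ := by rw [hL]; field_simp
  choose G0 hG K0 hGK hK using fun j : ℕ => hR (x * flow (j * L))
  set gg : ℕ → SL(2, ℝ) := fun j => if j < n then G0 j else γ.1 * G0 0 with hgg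
  set k : ℕ → SL(2, ℝ) := fun j => if j < n then K0 j else K0 0 with hk
  have hggΓ : ∀ j, gg j ∈ Γ := by
    intro j
    rw [hgg]
    dsimp only
    split_ifs
    · exact hG j
    · exact mul_mem γ.2 (hG 0)
  set u : ℕ → Γ := fun j => ⟨gg j, hggΓ j⟩ with hu
  have hG0 : G0 0 * K0 0 = x := by
    rw [← hGK 0]
    rw [Nat.cast_zero, zero_mul, flow_zero, mul_one]
  refine ⟨n, L, k, fun j => (u j)⁻¹ * u (j + 1), ⟨G0 0, hG 0⟩, hn1, ?_, ?_, ?_, ?_, ?_, ?_, ?_⟩
  · rw [hL, le_div_iff₀ hn0]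
    linarith
  · rw [hL, div_le_iff₀ hn0]
    linarith
  · rw [hnL]
    exact htr
  · intro j
    rw [hk]
    dsimp only
    split_ifs
    · exact hK j
    · exact hK 0
  · intro j hj
    have e0 : (((u j)⁻¹ * u (j + 1) : Γ) : SL(2, ℝ)) = (gg j)⁻¹ * gg (j + 1) := rfl
    have egj : gg j = G0 j := if_pos hj
    have ekj : k j = K0 j := if_pos hj
    have hGj := hGK j
    have e1 : k j * flow L = (gg j)⁻¹ * (x * flow ((j + 1 : ℕ) * L)) := by
      have e2 : flow ((j + 1 : ℕ) * L) = flow (j * L) * flow L := by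
        rw [← flow_add]
        congr 1
        push_cast
        ring
      rw [e2, ← mul_assoc x, hGj, egj, ekj]
      group
    rw [e0, e1]
    by_cases hj1 : j + 1 < n
    · left
      have e3 : gg (j + 1) = G0 (j + 1) := if_pos hj1
      have e4 : k (j + 1) = K0 (j + 1) := if_pos hj1
      rw [mul_assoc, e3, e4, ← hGK (j + 1)]
    · have e3 : gg (j + 1) = γ.1 * G0 0 := if_neg hj1
      have e4 : k (j + 1) = K0 0 := if_neg hj1
      have e5 : ((j + 1 : ℕ) : ℝ) * L = ℓ := by
        have : j + 1 = n := by omega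
        rw [this, hnL]
      rw [mul_assoc, e3, e4, mul_assoc γ.1, hG0, e5]
      rcases hx with hx | hx
      · left
        rw [hx]
      · right
        rw [hx, mul_neg]
  · rw [hk]
    dsimp only
    rw [if_neg (lt_irrefl n), if_pos (by omega)]
  · rw [prod_tele]
    apply Subtype.ext
    change (G0 0)⁻¹ * γ.1 * G0 0 = (gg 0)⁻¹ * gg n
    have e1 : gg 0 = G0 0 := if_pos (by omega)
    have e2 : gg n = γ.1 * G0 0 := if_neg (lt_irrefl n)
    rw [e1, e2, mul_assoc]

end Pool.Agent.Q121.SA
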