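import Pool.Agent.Q86.SA.Stm

/-!
# Project SA: growth of the powers gives an eigenvalue; complement of a nondegenerate pairing
-/

set_option autoImplicit false

namespace Pool.Agent.Q121.SA

open Matrix Pool.Agent.Q86.SA Filter Topology

/-- SR. -/
theorem sr : S_SR := by
  intro A s v i hs h
  let i1 : NormedRing (Matrix (Fin 2 × Fin 2) (Fin 2 × Fin 2) ℂ) := Matrix.linftyOpNormedRing
  let i2 : NormedAlgebra ℂ (Matrix (Fin 2 × Fin 2) (Fin 2 × Fin 2) ℂ) :=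
    Matrix.linftyOpNormedAlgebra
  have i3 : CompleteSpace (Matrix (Fin 2 × Fin 2) (Fin 2 × Fin 2) ℂ) :=
    FiniteDimensional.complete ℂ _
  obtain ⟨μ, hμ, hμr⟩ := spectrum.exists_nnnorm_eq_spectralRadius A
  refine ⟨μ, hμ, ?_⟩
  have hc : ∀ m : ℕ, s ^ m ≤ ‖A ^ m‖ * ‖v‖ := by
    intro m
    refine (h m).trans ((norm_le_pi_norm _ i).trans ?_)
    exact Matrix.linfty_opNorm_mulVec (A ^ m) v
  have hv : 0 < ‖v‖ := by
    by_contra hcon
    have h0 : ‖v‖ = 0 := le_antisymm (not_lt.mp hcon) (norm_nonneg _)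
    have h1 := hc 0
    rw [h0, mul_zero, pow_zero] at h1
    linarith
  have hlim := spectrum.pow_norm_pow_one_div_tendsto_nhds_spectralRadius A
  have hlow : Tendsto (fun n : ℕ => ENNReal.ofReal (s * (‖v‖⁻¹) ^ (1 / n : ℝ))) atTop
      (𝓝 (ENNReal.ofReal s)) := by
    refine (ENNReal.continuous_ofReal.tendsto _).comp ?_
    have h1 : Tendsto (fun n : ℕ => (‖v‖⁻¹) ^ (1 / n : ℝ)) atTop (𝓝 ((‖v‖⁻¹) ^ (0 : ℝ))) := by
      refine ((Real.continuousAt_const_rpow (inv_pos.mpr hv).ne').tendsto).comp ?_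
      exact tendsto_one_div_atTop_nhds_zero_nat
    rw [Real.rpow_zero] at h1
    simpa using h1.const_mul s
  have hle : ENNReal.ofReal s ≤ spectralRadius ℂ A := by
    refine le_of_tendsto_of_tendsto hlow hlim ?_
    filter_upwards [eventually_ge_atTop 1] with n hn
    apply ENNReal.ofReal_le_ofReal
    have hn0 : (n : ℝ) ≠ 0 := by positivity
    have h1 : s ^ n * ‖v‖⁻¹ ≤ ‖A ^ n‖ := by
      rw [mul_inv_le_iff₀ hv]
      exact hc n
    calc s * (‖v‖⁻¹) ^ (1 / n : ℝ) = (s ^ n * ‖v‖⁻¹) ^ (1 / n : ℝ) := by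
          rw [Real.mul_rpow (pow_nonneg hs n) (inv_nonneg.mpr hv.le), ← Real.rpow_natCast,
            ← Real.rpow_mul hs, mul_one_div_cancel hn0, Real.rpow_one]
      _ ≤ ‖A ^ n‖ ^ (1 / n : ℝ) :=
          Real.rpow_le_rpow (by positivity) h1 (by positivity)
  rw [← hμr] at hle
  have h2 : ENNReal.ofReal s ≤ ENNReal.ofReal ‖μ‖ := by
    rw [ofReal_norm]
    exact hle
  exact (ENNReal.ofReal_le_ofReal_iff (norm_nonneg μ)).mp h2

/-- BLK. -/
theorem blk : S_BLK := by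
  intro L E hdet
  have hu : IsUnit (L * E).det := isUnit_iff_ne_zero.mpr hdet
  have hker : LinearMap.ker (Eᵀ).mulVecLin ≠ ⊥ := by
    apply LinearMap.ker_ne_bot_of_finrank_lt
    simp
  obtain ⟨m0, hm0, hm0ne⟩ := Submodule.exists_mem_ne_zero_of_ne_bot hker
  have hm0E : m0 ᵥ* E = 0 := by
    have h1 : Eᵀ *ᵥ m0 = 0 := hm0
    rwa [Matrix.mulVec_transpose] at h1
  obtain ⟨i, hi⟩ := Function.ne_iff.mp hm0ne
  have hi' : m0 i ≠ 0 := hi
  set Q : Matrix (Fin 4) (Fin 4) ℂ := 1 - E * (L * E)⁻¹ * L with hQ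
  have hLQ : L * Q = 0 := by
    rw [hQ, Matrix.mul_sub, Matrix.mul_one, ← Matrix.mul_assoc, ← Matrix.mul_assoc,
      Matrix.mul_nonsing_inv _ hu, Matrix.one_mul, sub_self]
  have hmQ : m0 ᵥ* Q = m0 := by
    rw [hQ, Matrix.vecMul_sub, Matrix.vecMul_one, ← Matrix.vecMul_vecMul, ← Matrix.vecMul_vecMul,
      hm0E, Matrix.zero_vecMul, Matrix.zero_vecMul, sub_zero]
  set n : Matrix (Fin 4) (Fin 1) ℂ := fun j _ => Q j i with hn
  set m : Matrix (Fin 1) (Fin 4) ℂ := fun _ j => (m0 i)⁻¹ * m0 j with hm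
  have hLn : L * n = 0 := by
    ext a b
    have h1 := congrFun (congrFun hLQ a) i
    rw [Matrix.mul_apply] at h1 ⊢
    exact h1
  have hmE : m * E = 0 := by
    ext a b
    have h1 := congrFun hm0E b
    rw [Matrix.mul_apply]
    change ∑ j, (m0 i)⁻¹ * m0 j * E j b = 0
    simp only [mul_assoc]
    rw [← Finset.mul_sum]
    change (m0 i)⁻¹ * (m0 ᵥ* E) b = 0
    rw [h1]
    exact mul_zero _
  have hmn : m * n = 1 := by
    ext a b
    have h1 := congrFun hmQ i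
    rw [Matrix.mul_apply]
    change ∑ j, (m0 i)⁻¹ * m0 j * Q j i = _
    simp only [mul_assoc]
    rw [← Finset.mul_sum]
    change (m0 i)⁻¹ * (m0 ᵥ* Q) i = _
    rw [h1, inv_mul_cancel₀ hi', Subsingleton.elim a b, Matrix.one_apply_eq]
  refine ⟨n, m, hLn, hmE, hmn, ?_⟩
  have h1 : Matrix.fromRows L m * Matrix.fromCols (E * (L * E)⁻¹) n = 1 := by
    rw [Matrix.fromRows_mul_fromCols, ← Matrix.mul_assoc, Matrix.mul_nonsing_inv _ hu, hLn,
      ← Matrix.mul_assoc, hmE, Matrix.zero_mul, hmn, Matrix.fromBlocks_one]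
  have h2 : Matrix.fromCols (E * (L * E)⁻¹) n * Matrix.fromRows L m = 1 := by
    rw [Matrix.mul_eq_one_comm_of_card_eq]
    · exact h1
    · simp
  rw [Matrix.fromCols_mul_fromRows] at h2
  exact h2

end Pool.Agent.Q121.SA
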